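import Pool.Agent.Helper1_BQF.Rotation

set_option autoImplicit false

namespace Pool.Agent.Helper1_BQF

/-- Core approximation statement. -/
lemma core (a Δ β : ℝ) (ha : 0 < a) (hΔ : 0 < Δ) (hβ : Irrational β) (U₀ V₀ ε : ℝ) (hε : 0 < ε) :
    ∃ m n k : ℤ, |a * (k + β) ^ 2 + 2 * a * (m + β * n) * (k + β) + Δ * (2 * n + 1) - U₀| < ε ∧
      |-(a * (2 * (m + β * n) + 1)) - V₀| < ε := by
  set s₀ : ℝ := -(V₀ / a + 1) / 2 with hs₀
  set ε' : ℝ := ε / (4 * a) with hε'
  set θ : ℝ := ε / (8 * Δ) with hθ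
  have hε'0 : 0 < ε' := by positivity
  have hθ0 : 0 < θ := by positivity
  obtain ⟨A₀, hA₀, hrot⟩ := rotation (θ / 4) (θ * ε' / 2) (by positivity) (by positivity)
  -- choose a good approximation
  set δ₀ : ℝ := min (ε' / 2) (min (A₀ * (2 * Δ / a)) (θ * Δ / (2 * a))) with hδ₀
  have hδ₀0 : 0 < δ₀ := by positivity
  obtain ⟨N, P, hN, hcop, hδlt, hδne⟩ : ∃ N P : ℤ, 0 < N ∧ IsCoprime P N ∧
      |(N:ℝ) * β - P| < δ₀ ∧ (N:ℝ) * β - P ≠ 0 := by
    obtain ⟨M, hM⟩ := exists_nat_gt (1 / δ₀)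
    have hM0 : 0 < M := by
      have : (0:ℝ) < M := lt_trans (by positivity) hM
      exact_mod_cast this
    obtain ⟨q, hq1, hq2⟩ := Real.exists_rat_abs_sub_le_and_den_le β hM0
    have hd : (0:ℝ) < q.den := by exact_mod_cast q.den_pos
    refine ⟨q.den, q.num, by exact_mod_cast q.den_pos, ?_, ?_, ?_⟩
    · rw [Int.isCoprime_iff_nat_coprime]
      simpa using q.reduced
    · have h1 : ((q.den : ℤ) : ℝ) * β - q.num = q.den * (β - q) := by
        have : (q : ℝ) = q.num / q.den := by exact_mod_cast (Rat.num_div_den q).symm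
        rw [this]; push_cast; field_simp
      rw [h1, abs_mul, abs_of_pos hd]
      have h2 : (q.den:ℝ) * |β - q| ≤ q.den * (1 / ((M + 1) * q.den)) :=
        mul_le_mul_of_nonneg_left hq1 hd.le
      have h3 : (q.den:ℝ) * (1 / ((M + 1) * q.den)) = 1 / (M + 1) := by field_simp
      have h4 : (1:ℝ) / (M + 1) < δ₀ := by
        rw [div_lt_iff₀ (by positivity)]
        rw [div_lt_iff₀ hδ₀0] at hM
        nlinarith
      linarith
    · intro h
      apply hβ
      refine ⟨q, ?_⟩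
      have : (q : ℝ) = q.num / q.den := by exact_mod_cast (Rat.num_div_den q).symm
      rw [this]
      push_cast at h
      field_simp
      linarith
  set δ : ℝ := (N:ℝ) * β - P with hδ
  have hN' : (0:ℝ) < N := by exact_mod_cast hN
  have hδpos : 0 < |δ| := abs_pos.mpr hδne
  have hδ1 : |δ| < ε' / 2 := lt_of_lt_of_le hδlt (min_le_left _ _)
  have hδ2 : |δ| < A₀ * (2 * Δ / a) :=
    lt_of_lt_of_le hδlt ((min_le_right _ _).trans (min_le_left _ _))
  have hδ3 : |δ| < θ * Δ / (2 * a) :=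
    lt_of_lt_of_le hδlt ((min_le_right _ _).trans (min_le_right _ _))
  -- the quadratic polynomial
  set A : ℝ := a * δ / (2 * Δ) with hA
  have hAne : A ≠ 0 := by rw [hA]; positivity
  have hAabs : |A| = a * |δ| / (2 * Δ) := by
    rw [hA, abs_div, abs_mul, abs_of_pos ha, abs_of_pos (show 0 < 2 * Δ by positivity)]
  have hAlt : |A| < A₀ := by
    rw [hAabs, div_lt_iff₀ (by positivity)]
    have : A₀ * (2 * Δ / a) * a = A₀ * (2 * Δ) := by field_simp
    nlinarith
  have hApos : 0 < |A| := abs_pos.mpr hAne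
  have h1θ : 1 ≤ θ / (4 * |A|) := by
    rw [le_div_iff₀ (by positivity), hAabs]
    rw [lt_div_iff₀ (by positivity)] at hδ3
    have : 1 * (4 * (a * |δ| / (2 * Δ))) = (|δ| * (2 * a)) / Δ := by field_simp; ring
    rw [this, div_le_iff₀ hΔ]
    linarith
  set μ : ℝ := 2 * A with hμ
  have hμδ : μ = a * δ / Δ := by rw [hμ, hA]; field_simp
  -- left end point of the range of k
  set κL : ℝ := if 0 < A then (θ - N) / μ - β else (2 * θ - N) / μ - β with hκL
  set k₁ : ℤ := ⌈κL⌉ with hk₁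
  have hk₁a : κL ≤ k₁ := Int.le_ceil _
  have hk₁b : (k₁:ℝ) < κL + 1 := Int.ceil_lt_add_one _
  obtain ⟨k, z, hk1, hk2, hkz⟩ := hrot A (A * 2 * β + a * δ * s₀ / Δ)
    (N * s₀ - δ * U₀ / (2 * Δ) + A * β ^ 2 + a * δ * s₀ / Δ * β + δ / 2) hAne hAlt k₁
  -- t is in range
  set t : ℝ := N + μ * (k + β) with ht
  have hkκ : 0 ≤ (k:ℝ) - κL := by linarith
  have hkκ2 : |μ| * ((k:ℝ) - κL) ≤ θ := by
    have h1 : (k:ℝ) - κL ≤ θ / (2 * |A|) := by
      have h2 : θ / (2 * |A|) = θ / (4 * |A|) + θ / (4 * |A|) := by field_simp; ring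
      have h3 : θ / 4 / |A| = θ / (4 * |A|) := by field_simp
      linarith
    have h4 : |μ| = 2 * |A| := by rw [hμ, abs_mul, abs_two]
    rw [h4]
    rw [le_div_iff₀ (by positivity)] at h1
    linarith
  have hμne : μ ≠ 0 := by rw [hμ]; positivity
  have htr : θ ≤ t ∧ t ≤ 2 * θ := by
    by_cases hA0 : 0 < A
    · have e1 : t = θ + μ * (k - κL) := by
        rw [ht, hκL, if_pos hA0]; field_simp; ring
      have hμ0 : 0 < μ := by rw [hμ]; linarith
      rw [abs_of_pos hμ0] at hkκ2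
      rw [e1]
      constructor
      · have := mul_nonneg hμ0.le hkκ; linarith
      · linarith
    · have e1 : t = 2 * θ + μ * (k - κL) := by
        rw [ht, hκL, if_neg hA0]; field_simp; ring
      have hμ0 : μ < 0 := by
        rcases lt_or_gt_of_ne hAne with h | h
        · rw [hμ]; linarith
        · exact absurd h hA0
      rw [abs_of_neg hμ0] at hkκ2
      rw [e1]
      constructor
      · linarith
      · have := mul_nonneg (neg_nonneg.mpr hμ0.le) hkκ; linarith
  have ht0 : 0 < t := by linarith [htr.1]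
  -- g(k) and w
  set F : ℝ := a * (k + β) ^ 2 + 2 * a * s₀ * (k + β) + Δ with hF
  set R : ℝ := (U₀ - F) / (2 * Δ) with hR
  have hg : A * (k:ℝ) ^ 2 + (A * 2 * β + a * δ * s₀ / Δ) * k +
      (N * s₀ - δ * U₀ / (2 * Δ) + A * β ^ 2 + a * δ * s₀ / Δ * β + δ / 2) = N * s₀ - δ * R := by
    rw [hR, hF, hA]; field_simp; ring
  rw [hg] at hkz
  set w : ℝ := z - (N * s₀ - δ * R) with hw
  have hwabs : |w| < θ * ε' / 2 := by
    rw [hw, abs_sub_comm]; exact hkz
  -- base solution of P n + N m = z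
  obtain ⟨u, v, huv⟩ := hcop
  -- u P + v N = 1
  set n₀ : ℤ := u * z with hn₀
  set m₀ : ℤ := v * z with hm₀
  set σ₀ : ℝ := β * n₀ + m₀ - s₀ with hσ₀
  set j : ℤ := round ((w / t - σ₀) / δ) with hj
  set n : ℤ := n₀ + j * N with hn
  set m : ℤ := m₀ - j * P with hm
  set σ : ℝ := β * n + m - s₀ with hσ
  have hσj : σ = σ₀ + j * δ := by
    rw [hσ, hσ₀, hn, hm, hδ]; push_cast; ring
  have hσw : |σ - w / t| ≤ |δ| := by
    have h1 : |(w / t - σ₀) / δ - j| ≤ 1 / 2 := abs_sub_round _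
    have h2 : σ - w / t = -δ * ((w / t - σ₀) / δ - j) := by
      rw [hσj]; field_simp; ring
    rw [h2, abs_mul, abs_neg]
    nlinarith [abs_nonneg δ]
  have hPN : (P:ℝ) * n + N * m = z := by
    have h1 : P * n + N * m = z := by
      rw [hn, hm, hn₀, hm₀]
      calc P * (u * z + j * N) + N * (v * z - j * P) = (u * P + v * N) * z := by ring
        _ = z := by rw [huv, one_mul]
    exact_mod_cast h1
  have hσsmall : |σ| < ε' := by
    have h1 : |w / t| ≤ ε' / 2 := by
      rw [abs_div, abs_of_pos ht0, div_le_iff₀ ht0]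
      nlinarith [htr.1]
    have h2 : |σ| ≤ |σ - w / t| + |w / t| := by
      have := abs_add_le (σ - w / t) (w / t)
      simpa using this
    linarith
  -- the key identity
  have hkey : δ * (n + (a * (k + β) / Δ) * σ - R) = -w + t * σ := by
    have h1 : δ * n = N * σ - z + N * s₀ := by
      rw [hσ, hδ, ← hPN]; ring
    have h2 : δ * ((a * (k + β) / Δ) * σ) = (t - N) * σ := by
      rw [ht, hμδ]; field_simp; ring
    calc δ * (n + (a * (k + β) / Δ) * σ - R)
        = δ * n + δ * ((a * (k + β) / Δ) * σ) - δ * R := by ring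
      _ = -w + t * σ := by rw [h1, h2, hw]; ring
  have herr : |(n:ℝ) + (a * (k + β) / Δ) * σ - R| ≤ 2 * θ := by
    have h1 : |-w + t * σ| ≤ t * |δ| := by
      have : -w + t * σ = t * (σ - w / t) := by field_simp; ring
      rw [this, abs_mul, abs_of_pos ht0]
      exact mul_le_mul_of_nonneg_left hσw ht0.le
    rw [← hkey, abs_mul] at h1
    have h2 : |δ| * |(n:ℝ) + (a * (k + β) / Δ) * σ - R| ≤ |δ| * (2 * θ) := by
      have := mul_le_mul_of_nonneg_right htr.2 hδpos.le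
      linarith
    exact le_of_mul_le_mul_left h2 hδpos
  refine ⟨m, n, k, ?_, ?_⟩
  · have h1 : a * ((k:ℝ) + β) ^ 2 + 2 * a * (m + β * n) * (k + β) + Δ * (2 * n + 1) - U₀
        = 2 * Δ * (n + (a * (k + β) / Δ) * σ - R) := by
      rw [hR, hF, hσ]; field_simp; ring
    rw [h1, abs_mul, abs_of_pos (show 0 < 2 * Δ by positivity)]
    calc 2 * Δ * |(n:ℝ) + (a * (k + β) / Δ) * σ - R| ≤ 2 * Δ * (2 * θ) :=
          mul_le_mul_of_nonneg_left herr (by positivity)
      _ = ε / 2 := by rw [hθ]; field_simp; ring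
      _ < ε := by linarith
  · have h1 : -(a * (2 * ((m:ℝ) + β * n) + 1)) - V₀ = -(2 * a * σ) := by
      rw [hσ, hs₀]; field_simp; ring
    rw [h1, abs_neg, abs_mul, abs_of_pos (show 0 < 2 * a by positivity)]
    have : 2 * a * ε' = ε / 2 := by rw [hε']; field_simp; ring
    nlinarith

/-- Values of the form with Gram matrix `(a, b; b, c)`. -/
def Qv (a b c : ℝ) (x : ℤ × ℤ) : ℝ :=
  a * (x.1 : ℝ) ^ 2 + 2 * b * (x.1 : ℝ) * (x.2 : ℝ) + c * (x.2 : ℝ) ^ 2

/-- Admissible triples. -/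
def Adm (x₁ x₂ x₃ : ℤ × ℤ) : Prop :=
  x₁ ≠ x₂ ∧ x₁ ≠ -x₂ ∧ x₁ ≠ x₃ ∧ x₁ ≠ -x₃ ∧ x₂ ≠ x₃ ∧ x₂ ≠ -x₃

/-- The set `S_Q`. -/
def SQ (a b c : ℝ) : Set (ℝ × ℝ) :=
  {w | ∃ x₁ x₂ x₃ : ℤ × ℤ, Adm x₁ x₂ x₃ ∧
    w = (Qv a b c x₁ - Qv a b c x₂, Qv a b c x₂ - Qv a b c x₃)}

lemma dense_of_irr (a b c : ℝ) (ha : 0 < a) (hd : 0 < a * c - b ^ 2) (hirr : Irrational (b / a)) :
    Dense (SQ a b c) := by
  rw [Metric.dense_iff]
  rintro ⟨U₀, V₀⟩ r hr
  obtain ⟨m, n, k, hU, hV⟩ := core a (c - b ^ 2 / a) (b / a) ha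
    (by rw [sub_pos, div_lt_iff₀ ha]; linarith) hirr U₀ V₀ r hr
  refine ⟨(Qv a b c (m + k, n + 1) - Qv a b c (m, n), Qv a b c (m, n) - Qv a b c (m + 1, n)), ?_, ?_⟩
  · rw [Metric.mem_ball, Prod.dist_eq, max_lt_iff, Real.dist_eq, Real.dist_eq]
    have e1 : Qv a b c (m + k, n + 1) - Qv a b c (m, n)
        = a * (k + b / a) ^ 2 + 2 * a * (m + b / a * n) * (k + b / a)
          + (c - b ^ 2 / a) * (2 * n + 1) := by
      unfold Qv
      push_cast
      field_simp
      ring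
    have e2 : Qv a b c (m, n) - Qv a b c (m + 1, n) = -(a * (2 * (m + b / a * n) + 1)) := by
      unfold Qv
      push_cast
      field_simp
      ring
    rw [e1, e2]
    exact ⟨hU, hV⟩
  · refine ⟨(m + k, n + 1), (m, n), (m + 1, n), ⟨?_, ?_, ?_, ?_, ?_, ?_⟩, rfl⟩ <;>
      simp only [ne_eq, Prod.mk.injEq, Prod.neg_mk, not_and] <;> intros <;> omega

/-- The set grows under integral substitutions. -/
lemma SQ_mono (a b c a' b' c' : ℝ) (g : ℤ × ℤ → ℤ × ℤ) (hg : Function.Injective g)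
    (hneg : ∀ x, g (-x) = -g x) (h : ∀ x, Qv a' b' c' x = Qv a b c (g x)) :
    SQ a' b' c' ⊆ SQ a b c := by
  rintro w ⟨x₁, x₂, x₃, ⟨h1, h2, h3, h4, h5, h6⟩, rfl⟩
  refine ⟨g x₁, g x₂, g x₃, ⟨hg.ne h1, ?_, hg.ne h3, ?_, hg.ne h5, ?_⟩, by simp only [h]⟩
  · rw [← hneg]; exact hg.ne h2
  · rw [← hneg]; exact hg.ne h4
  · rw [← hneg]; exact hg.ne h6

/-- `Q` is a real multiple of a form with rational coefficients. -/
def RatMult (a b c : ℝ) : Prop := ∃ (t : ℝ) (p q r : ℚ), a = t * p ∧ b = t * q ∧ c = t * r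

theorem dense_of_not_rat (a b c : ℝ) (ha : 0 < a) (hd : 0 < a * c - b ^ 2)
    (hn : ¬ RatMult a b c) : Dense (SQ a b c) := by
  have hc : 0 < c := by
    by_contra h
    push Not at h
    nlinarith [sq_nonneg b, mul_nonneg ha.le (neg_nonneg.mpr h)]
  by_cases h1 : Irrational (b / a)
  · exact dense_of_irr a b c ha hd h1
  by_cases h2 : Irrational (b / c)
  · have h3 := dense_of_irr c b a hc (by linarith) h2
    apply h3.mono
    apply SQ_mono a b c c b a (fun x => (x.2, x.1))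
    · intro x y hxy
      simp only [Prod.mk.injEq] at hxy
      exact Prod.ext hxy.2 hxy.1
    · intro x; rfl
    · intro x; unfold Qv; ring
  have hs : 0 < a + 2 * b + c := by
    nlinarith [sq_nonneg (a + b), sq_nonneg (b + c), mul_pos ha hc]
  have h3 : Irrational ((b + c) / (a + 2 * b + c)) := by
    intro hr
    obtain ⟨t, ht⟩ := hr
    unfold Irrational at h1 h2
    push Not at h1 h2
    obtain ⟨r, hr⟩ := h1
    obtain ⟨s, hs'⟩ := h2
    apply hn
    have hb : b = a * r := by rw [hr]; field_simp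
    by_cases hb0 : b = 0
    · -- c / (a + c) = t rational
      rw [hb0] at ht
      simp only [zero_add, mul_zero, add_zero] at ht
      have hac : 0 < a + c := by linarith
      have h4 : c = t * (a + c) := by rw [ht]; field_simp
      have h5 : (1 - (t:ℝ)) * c = t * a := by linarith
      have h6 : (1 - (t:ℝ)) ≠ 0 := by
        intro h0
        rw [h0, zero_mul] at h5
        have : (t:ℝ) = 1 := by linarith
        rw [this] at h5
        linarith
      refine ⟨a, 1, 0, t / (1 - t), ?_, ?_, ?_⟩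
      · simp
      · simp [hb0]
      · push_cast; field_simp; linarith
    · have hs0 : (s:ℝ) ≠ 0 := by
        rw [hs']; exact div_ne_zero hb0 hc.ne'
      have h4 : b = c * s := by rw [hs']; field_simp
      refine ⟨a, 1, r, r / s, ?_, hb, ?_⟩
      · simp
      · push_cast
        field_simp
        linarith
  have h4 := dense_of_irr (a + 2 * b + c) (b + c) c hs (by nlinarith) h3
  apply h4.mono
  apply SQ_mono a b c (a + 2 * b + c) (b + c) c (fun x => (x.1, x.1 + x.2))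
  · intro x y hxy
    simp only [Prod.mk.injEq] at hxy
    refine Prod.ext hxy.1 ?_
    have := hxy.2
    rw [hxy.1] at this
    exact add_left_cancel this
  · intro x
    simp only [Prod.neg_mk, Prod.fst_neg, Prod.snd_neg, Prod.mk.injEq, true_and]
    ring
  · intro x; unfold Qv; push_cast; ring

end Pool.Agent.Helper1_BQF
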