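import Mathlib

set_option autoImplicit false

namespace Pool.Agent.Helper1_BQF

/-- A slowly varying rotation gets close to an integer. -/
lemma rotation (θ η : ℝ) (hθ : 0 < θ) (hη : 0 < η) : ∃ A₀ : ℝ, 0 < A₀ ∧
    ∀ A B C : ℝ, A ≠ 0 → |A| < A₀ → ∀ k₁ : ℤ, ∃ k z : ℤ, (k₁ : ℝ) ≤ k ∧ (k : ℝ) ≤ k₁ + θ / |A| ∧
      |A * (k:ℝ) ^ 2 + B * k + C - z| < η := by
  -- choose the denominator `b = 2^j`
  obtain ⟨j, hj⟩ : ∃ j : ℕ, 3 / θ + 1 / η < (2:ℝ) ^ j := pow_unbounded_of_one_lt _ one_lt_two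
  set b : ℝ := (2:ℝ) ^ j with hb
  have hb0 : 0 < b := by positivity
  have hb1 : 1 ≤ b := one_le_pow₀ (by norm_num)
  have hbθ : 3 < θ * b := by
    have h1 : 3 / θ < b := lt_of_le_of_lt (by have : 0 < 1 / η := by positivity
                                              linarith) hj
    rw [div_lt_iff₀ hθ] at h1; linarith
  have hbη : 1 < η * b := by
    have h1 : 1 / η < b := lt_of_le_of_lt (by have : 0 < 3 / θ := by positivity
                                              linarith) hj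
    rw [div_lt_iff₀ hη] at h1; linarith
  refine ⟨min (η / (6 * b ^ 2)) (θ / (2 * (b + 1))), by positivity, ?_⟩
  intro A B C hA hA0 k₁
  have hApos : 0 < |A| := abs_pos.mpr hA
  have hA1 : |A| * (6 * b ^ 2) < η := by
    have := lt_of_lt_of_le hA0 (min_le_left _ _)
    rwa [lt_div_iff₀ (by positivity)] at this
  have hA2 : |A| * (2 * (b + 1)) < θ := by
    have := lt_of_lt_of_le hA0 (min_le_right _ _)
    rwa [lt_div_iff₀ (by positivity)] at this
  -- the first difference at real `x` is `d x = 2 A x + (A + B)`.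
  -- the interval swept on [k₁, k₁ + θ/(2|A|)] has length θ; find an odd multiple of 1/b in it
  obtain ⟨c, hc_odd, x, hx1, hx2, hxc⟩ : ∃ c : ℤ, Odd c ∧ ∃ x : ℝ, (k₁:ℝ) ≤ x ∧
      x ≤ k₁ + θ / (2 * |A|) ∧ 2 * A * x + (A + B) = c / b := by
    -- lower end of the swept interval
    set e1 : ℝ := 2 * A * k₁ + (A + B) with he1
    set e2 : ℝ := 2 * A * (k₁ + θ / (2 * |A|)) + (A + B) with he2
    have hlen : e2 - e1 = θ * (A / |A|) := by
      rw [he1, he2]; field_simp; ring
    rcases lt_or_gt_of_ne hA with hneg | hpos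
    · -- A < 0
      have h1 : A / |A| = -1 := by rw [abs_of_neg hneg]; field_simp
      rw [h1] at hlen
      -- e2 = e1 - θ
      obtain ⟨c, hc1, hc2, hc3⟩ : ∃ c : ℤ, Odd c ∧ e2 * b ≤ c ∧ (c:ℝ) ≤ e1 * b := by
        rcases Int.even_or_odd ⌈e2 * b⌉ with h | h
        · refine ⟨⌈e2 * b⌉ + 1, h.add_one, ?_, ?_⟩
          · push_cast; linarith [Int.le_ceil (e2 * b)]
          · push_cast
            have := Int.ceil_lt_add_one (e2 * b)
            nlinarith
        · refine ⟨⌈e2 * b⌉, h, Int.le_ceil _, ?_⟩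
          have := Int.ceil_lt_add_one (e2 * b)
          nlinarith
      refine ⟨c, hc1, (c / b - (A + B)) / (2 * A), ?_, ?_, ?_⟩
      · rw [le_div_iff_of_neg (by linarith)]
        have : c / b ≤ e1 := by rw [div_le_iff₀ hb0]; exact hc3
        rw [he1] at this
        linarith
      · rw [div_le_iff_of_neg (by linarith)]
        have : e2 ≤ c / b := by rw [le_div_iff₀ hb0]; exact hc2
        rw [he2] at this
        linarith
      · field_simp; ring
    · have h1 : A / |A| = 1 := by rw [abs_of_pos hpos]; field_simp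
      rw [h1] at hlen
      obtain ⟨c, hc1, hc2, hc3⟩ : ∃ c : ℤ, Odd c ∧ e1 * b ≤ c ∧ (c:ℝ) ≤ e2 * b := by
        rcases Int.even_or_odd ⌈e1 * b⌉ with h | h
        · refine ⟨⌈e1 * b⌉ + 1, h.add_one, ?_, ?_⟩
          · push_cast; linarith [Int.le_ceil (e1 * b)]
          · push_cast
            have := Int.ceil_lt_add_one (e1 * b)
            nlinarith
        · refine ⟨⌈e1 * b⌉, h, Int.le_ceil _, ?_⟩
          have := Int.ceil_lt_add_one (e1 * b)
          nlinarith
      refine ⟨c, hc1, (c / b - (A + B)) / (2 * A), ?_, ?_, ?_⟩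
      · rw [le_div_iff₀ (by linarith)]
        have : e1 ≤ c / b := by rw [le_div_iff₀ hb0]; exact hc2
        rw [he1] at this
        linarith
      · rw [div_le_iff₀ (by linarith)]
        have : c / b ≤ e2 := by rw [div_le_iff₀ hb0]; exact hc3
        rw [he2] at this
        linarith
      · field_simp; ring
  -- integer point near x
  set ks : ℤ := ⌈x⌉ with hks
  have hks1 : x ≤ ks := Int.le_ceil x
  have hks2 : (ks:ℝ) < x + 1 := Int.ceil_lt_add_one x
  -- solve i c ≡ r mod b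
  set G : ℝ := A * (ks:ℝ) ^ 2 + B * ks + C with hG
  set ρ : ℤ := round (G * b) with hρ
  have hcop : IsCoprime c ((2:ℤ) ^ j) := by
    apply IsCoprime.pow_right
    rw [Int.isCoprime_iff_gcd_eq_one]
    obtain ⟨m, rfl⟩ := hc_odd
    rw [← Int.isCoprime_iff_gcd_eq_one]
    exact ⟨1, -m, by ring⟩
  obtain ⟨u, v, huv⟩ := hcop
  -- i = (-ρ u) mod 2^j
  set i : ℤ := (-ρ * u) % (2 ^ j) with hi
  have hi0 : 0 ≤ i := Int.emod_nonneg _ (by positivity)
  have hi1 : i < 2 ^ j := Int.emod_lt_of_pos _ (by positivity)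
  have hi0' : (0:ℝ) ≤ i := by exact_mod_cast hi0
  have hi1' : (i:ℝ) < b := by rw [hb]; exact_mod_cast hi1
  obtain ⟨q, hq⟩ : ∃ q : ℤ, i * c + ρ = q * 2 ^ j := by
    have h1 : -ρ * u = i + 2 ^ j * ((-ρ * u) / 2 ^ j) := (Int.emod_add_mul_ediv _ _).symm
    refine ⟨ρ * v - c * ((-ρ * u) / 2 ^ j), ?_⟩
    have h2 : i = -ρ * u - 2 ^ j * ((-ρ * u) / 2 ^ j) := by linarith
    rw [h2]
    have h3 : u * c = 1 - v * 2 ^ j := by linarith
    calc (-ρ * u - 2 ^ j * ((-ρ * u) / 2 ^ j)) * c + ρ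
        = -ρ * (u * c) - 2 ^ j * ((-ρ * u) / 2 ^ j) * c + ρ := by ring
      _ = (ρ * v - c * ((-ρ * u) / 2 ^ j)) * 2 ^ j := by rw [h3]; ring
  have hq' : (i:ℝ) * (c / b) + ρ / b = q := by
    have : (i:ℝ) * c + ρ = q * b := by rw [hb]; exact_mod_cast hq
    field_simp
    linarith
  refine ⟨ks + i, q, ?_, ?_, ?_⟩
  · push_cast; linarith
  · push_cast
    have h1 : θ / |A| = θ / (2 * |A|) + θ / (2 * |A|) := by field_simp; ring
    have h2 : b + 1 ≤ θ / (2 * |A|) := by
      rw [le_div_iff₀ (by positivity)]; linarith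
    linarith
  · push_cast
    -- g(ks+i) = G + i d(ks) + A i (i-1)
    have h1 : A * ((ks:ℝ) + i) ^ 2 + B * (ks + i) + C - q
        = (G - ρ / b) + i * ((2 * A * ks + (A + B)) - c / b) + A * (i * (i - 1)) := by
      rw [hG, ← hq']; ring
    have h2 : |G - ρ / b| ≤ 1 / (2 * b) := by
      have h3 : |G * b - ρ| ≤ 1 / 2 := abs_sub_round _
      have h4 : G - ρ / b = (G * b - ρ) / b := by field_simp
      rw [h4, abs_div, abs_of_pos hb0, div_le_div_iff₀ hb0 (by positivity)]
      have := mul_le_mul_of_nonneg_right h3 hb0.le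
      linarith
    have h5 : |(2 * A * ks + (A + B)) - c / b| ≤ 2 * |A| := by
      rw [← hxc]
      have : (2 * A * ks + (A + B)) - (2 * A * x + (A + B)) = 2 * A * (ks - x) := by ring
      rw [this, abs_mul, abs_mul, abs_two]
      have h6 : |(ks:ℝ) - x| ≤ 1 := by
        rw [abs_le]; constructor <;> linarith
      have := mul_le_mul_of_nonneg_left h6 (abs_nonneg A)
      linarith
    have h6 : |(i:ℝ) * (i - 1)| ≤ b ^ 2 := by
      have ha : |(i:ℝ)| ≤ b := by rw [abs_of_nonneg hi0']; exact hi1'.le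
      have hb' : |(i:ℝ) - 1| ≤ b := by rw [abs_le]; constructor <;> linarith
      rw [abs_mul, sq]
      exact mul_le_mul ha hb' (abs_nonneg _) hb0.le
    rw [h1]
    have h7 : |(G - ρ / b) + i * ((2 * A * ks + (A + B)) - c / b) + A * (i * (i - 1))|
        ≤ |G - ρ / b| + |(i:ℝ) * ((2 * A * ks + (A + B)) - c / b)| + |A * (i * (i - 1))| :=
      abs_add_three _ _ _
    have h8 : |(i:ℝ) * ((2 * A * ks + (A + B)) - c / b)| ≤ b * (2 * |A|) := by
      rw [abs_mul, abs_of_nonneg hi0']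
      exact mul_le_mul hi1'.le h5 (abs_nonneg _) hb0.le
    have h9 : |A * (i * (i - 1))| ≤ |A| * b ^ 2 := by
      rw [abs_mul]
      exact mul_le_mul_of_nonneg_left h6 (abs_nonneg _)
    have h10 : 1 / (2 * b) < η / 2 := by
      rw [div_lt_div_iff₀ (by positivity) (by norm_num)]
      linarith
    have h11 : b * (2 * |A|) ≤ 2 * |A| * b ^ 2 := by
      have h12 : b ≤ b ^ 2 := by rw [sq]; exact le_mul_of_one_le_left hb0.le hb1
      have := mul_le_mul_of_nonneg_left h12 (show 0 ≤ 2 * |A| by positivity)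
      linarith
    linarith

end Pool.Agent.Helper1_BQF
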